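import Mathlib

/-!
# Smallness below a condition (project MP_c1f1e9_OC, sections 3.4 and 3.5)

An abstract preorder of conditions with a notion of good chain and a limit map.
-/

set_option autoImplicit false

open Set

namespace Pool.Agent.Helper43.OC

/-- A preorder with good chains and limits. -/
structure Frame (C L : Type*) [Preorder C] where
  good : (ℕ → C) → Prop
  lim : (ℕ → C) → L
  anti : ∀ {s : ℕ → C}, good s → Antitone s
  tail : ∀ {s : ℕ → C}, good s → ∀ m, good (fun n => s (n + m))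
  lim_tail : ∀ {s : ℕ → C}, good s → ∀ m, lim (fun n => s (n + m)) = lim s
  exist : ∀ (c : C) (D : ℕ → Set C), (∀ i, ∀ c' ≤ c, ∃ c'' ≤ c', c'' ∈ D i) →
    ∃ s, good s ∧ s 0 ≤ c ∧ ∀ i, ∃ k, s k ∈ D i

namespace Frame

variable {C L : Type*} [Preorder C] (Fr : Frame C L)

/-- `D` is dense below `c` -/
def Dense' (c : C) (D : Set C) : Prop := ∀ c' ≤ c, ∃ c'' ≤ c', c'' ∈ D

/-- `V` is small below `c` -/
def Small (V : Set L) (c : C) : Prop :=
  ∃ D : ℕ → Set C, (∀ i, Dense' c (D i)) ∧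
    ∀ s, Fr.good s → s 0 ≤ c → (∀ i, ∃ k, s k ∈ D i) → Fr.lim s ∉ V

/-- `V` is small below no `c' ≤ c` -/
def Big (V : Set L) (c : C) : Prop := ∀ c' ≤ c, ¬ Fr.Small V c'

variable {Fr} {V W : Set L} {c c' : C}

theorem Small.mono (h : Fr.Small W c) (hVW : V ⊆ W) : Fr.Small V c := by
  obtain ⟨D, h1, h2⟩ := h
  exact ⟨D, h1, fun s hs h0 hD hm => h2 s hs h0 hD (hVW hm)⟩

theorem Small.le (h : Fr.Small V c) (hc : c' ≤ c) : Fr.Small V c' := by
  obtain ⟨D, h1, h2⟩ := h
  exact ⟨D, fun i d hd => h1 i d (hd.trans hc), fun s hs h0 hD => h2 s hs (h0.trans hc) hD⟩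

theorem Big.mono (h : Fr.Big V c) (hVW : V ⊆ W) : Fr.Big W c :=
  fun c' hc' hs => h c' hc' (hs.mono hVW)

theorem Big.le (h : Fr.Big V c) (hc : c' ≤ c) : Fr.Big V c' :=
  fun d hd => h d (hd.trans hc)

theorem small_iUnion {V : ℕ → Set L} (h : ∀ n, Fr.Small (V n) c) : Fr.Small (⋃ n, V n) c := by
  choose D h1 h2 using h
  refine ⟨fun i => D i.unpair.1 i.unpair.2, fun i => h1 _ _, ?_⟩
  intro s hs h0 hD hm
  obtain ⟨n, hn⟩ := mem_iUnion.1 hm
  refine h2 n s hs h0 (fun i => ?_) hn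
  obtain ⟨k, hk⟩ := hD (Nat.pair n i)
  refine ⟨k, ?_⟩
  simpa using hk

theorem not_small_univ (c : C) : ¬ Fr.Small univ c := by
  rintro ⟨D, h1, h2⟩
  obtain ⟨s, hs, h0, hD⟩ := Fr.exist c D h1
  exact h2 s hs h0 hD (mem_univ _)

/-- compatibility -/
def Compat (a b : C) : Prop := ∃ r, r ≤ a ∧ r ≤ b

/-- smallness below a dense set of conditions -/
theorem small_of_dense (h : ∀ c' ≤ c, ∃ c'' ≤ c', Fr.Small V c'') : Fr.Small V c := by
  classical
  -- a maximal antichain of conditions below which `V` is small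
  let P : Set (Set C) := {A | (∀ a ∈ A, Fr.Small V a) ∧ ∀ a ∈ A, ∀ b ∈ A, Compat a b → a = b}
  obtain ⟨A, hA⟩ : ∃ A, Maximal (· ∈ P) A := by
    refine zorn_subset P fun K hKP hK => ⟨⋃₀ K, ⟨?_, ?_⟩, fun s hs => subset_sUnion_of_mem hs⟩
    · rintro a ⟨s, hs, has⟩
      exact (hKP hs).1 a has
    · rintro a ⟨s, hs, has⟩ b ⟨t, ht, hbt⟩ hab
      rcases hK.total hs ht with h1 | h1
      · exact (hKP ht).2 a (h1 has) b hbt hab
      · exact (hKP hs).2 a has b (h1 hbt) hab
  have hAP : A ∈ P := hA.prop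
  choose! D h1 h2 using hAP.1
  refine ⟨fun i => {d | ∃ a ∈ A, d ≤ a ∧ d ∈ D a i}, ?_, ?_⟩
  · intro i c' hc'
    obtain ⟨d, hd, hVd⟩ := h c' hc'
    -- `d` is compatible with some member of `A`
    obtain ⟨a, haA, r, hrd, hra⟩ : ∃ a ∈ A, Compat d a := by
      by_contra hcon
      push Not at hcon
      have hins : insert d A ∈ P := by
        refine ⟨?_, ?_⟩
        · rintro a (rfl | ha)
          · exact hVd
          · exact hAP.1 a ha
        · rintro a (rfl | ha) b (rfl | hb) hab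
          · rfl
          · exact absurd hab (hcon b hb)
          · obtain ⟨r, h3, h4⟩ := hab
            exact absurd ⟨r, h4, h3⟩ (hcon a ha)
          · exact hAP.2 a ha b hb hab
      have hdA : d ∈ A := hA.le_of_ge hins (subset_insert d A) (mem_insert d A)
      exact hcon d hdA ⟨d, le_rfl, le_rfl⟩
    obtain ⟨e, he, heD⟩ := h1 a haA i r hra
    exact ⟨e, he.trans (hrd.trans hd), a, haA, he.trans hra, heD⟩
  · intro s hs h0 hD hm
    choose k hk using hD
    choose a haA hka hkD using hk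
    have hanti := Fr.anti hs
    have ha : ∀ i, a i = a 0 := by
      intro i
      refine hAP.2 _ (haA i) _ (haA 0) ⟨s (max (k i) (k 0)), ?_, ?_⟩
      · exact (hanti (le_max_left _ _)).trans (hka i)
      · exact (hanti (le_max_right _ _)).trans (hka 0)
    have hex : ∃ m, s m ≤ a 0 := ⟨k 0, hka 0⟩
    set m := Nat.find hex with hmdef
    have hm0 : s m ≤ a 0 := Nat.find_spec hex
    have hkm : ∀ i, m ≤ k i := fun i => Nat.find_min' hex (by rw [← ha i]; exact hka i)
    refine h2 (a 0) (haA 0) (fun n => s (n + m)) (Fr.tail hs m) ?_ ?_ ?_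
    · show s (0 + m) ≤ a 0
      rw [zero_add]; exact hm0
    · intro i
      refine ⟨k i - m, ?_⟩
      show s (k i - m + m) ∈ D (a 0) i
      rw [Nat.sub_add_cancel (hkm i), ← ha i]
      exact hkD i
    · rw [Fr.lim_tail hs]
      exact hm

theorem exists_big (h : ¬ Fr.Small V c) : ∃ c' ≤ c, Fr.Big V c' := by
  by_contra hcon
  push Not at hcon
  refine h (small_of_dense fun c' hc' => ?_)
  have := hcon c' hc'
  unfold Big at this
  push Not at this
  exact this

theorem Big.exists_chain (h : Fr.Big V c) (hc : c' ≤ c) :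
    ∃ s, Fr.good s ∧ s 0 ≤ c' ∧ Fr.lim s ∈ V := by
  by_contra hcon
  push Not at hcon
  exact h c' hc ⟨fun _ => univ, fun _ d _ => ⟨d, le_rfl, mem_univ _⟩, fun s hs h0 _ => hcon s hs h0⟩

/-- one function -/
theorem exists_big_one (F : L → ℕ) (c : C) : ∃ c' ≤ c, ∃ b : ℕ, Fr.Big {y | F y ≤ b} c' := by
  have h : ∃ b : ℕ, ¬ Fr.Small {y | F y ≤ b} c := by
    by_contra hcon
    push Not at hcon
    refine not_small_univ (Fr := Fr) c ((small_iUnion hcon).mono fun y _ => ?_)
    exact mem_iUnion.2 ⟨F y, show F y ≤ F y from le_rfl⟩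
  obtain ⟨b, hb⟩ := h
  obtain ⟨c', hc', hB⟩ := exists_big hb
  exact ⟨c', hc', b, hB⟩

/-- Lemma S -/
theorem lemmaS {ι : Type*} (s : Finset ι) (F : ι → L → ℕ) (c : C) :
    ∃ c' ≤ c, ∃ b : ℕ, ∀ j ∈ s, Fr.Big {y | F j y ≤ b} c' := by
  classical
  induction s using Finset.induction_on with
  | empty => exact ⟨c, le_rfl, 0, by simp⟩
  | insert j s _ ih =>
    obtain ⟨c1, h1, b1, hb1⟩ := ih
    obtain ⟨c2, h2, b2, hb2⟩ := exists_big_one (Fr := Fr) (F j) c1
    refine ⟨c2, h2.trans h1, max b1 b2, fun i hi => ?_⟩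
    rcases Finset.mem_insert.1 hi with rfl | hi
    · exact hb2.mono fun y (hy : F i y ≤ b2) => (le_trans hy (le_max_right _ _) : F i y ≤ max b1 b2)
    · exact ((hb1 i hi).le h2).mono fun y (hy : F i y ≤ b1) =>
        (le_trans hy (le_max_left _ _) : F i y ≤ max b1 b2)

end Frame

end Pool.Agent.Helper43.OC
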